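import Pool.Agent.Helper68.ES.St4

/-!
# Project ES, module LVL: all classes
-/

set_option autoImplicit false

open MeasureTheory Set Filter Topology
open scoped ENNReal RealInnerProductSpace

namespace Pool.Agent.Helper6.ES

open Pool.Agent.Helper68.ES Pool.Agent.Helper68.EP Pool.Agent.Helper20.RG
open Pool.Agent.Helper20.RL (RQ Rich BM Fml Hit)
open Pool.Agent.Helper68.LM (Pl BB Bd Av HL ft fm DQ)

private theorem int_le {E : Set Pl} (hE : MeasurableSet E) {c : Pl → ℝ≥0∞}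
    (hc : ∀ z : Pl, c z ≠ 0 → z ∈ E) {r : ℝ} (hr : ∀ z : Pl, c z ≤ ENNReal.ofReal r) :
    ∫⁻ z, c z ≤ ENNReal.ofReal r * volume E := by
  have h1 : ∀ z, c z ≤ E.indicator (fun _ => ENNReal.ofReal r) z := by
    intro z
    by_cases hz : z ∈ E
    · rw [Set.indicator_of_mem hz]
      exact hr z
    · have : c z = 0 := by
        by_contra h
        exact hz (hc z h)
      rw [this]
      exact zero_le
  refine (lintegral_mono h1).trans ?_
  rw [lintegral_indicator hE, setLIntegral_const]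

theorem hLVL (hLVA : StLVA) (hLVB : StLVB) : Pool.Agent.Helper68.ES.StLVL := by
  intro η h0 h1
  obtain ⟨CA, hCA, hA⟩ := hLVA η h0 h1
  obtain ⟨CB, hCB, hB⟩ := hLVB
  refine ⟨CB * CA, by nlinarith, ?_⟩
  intro W E c f Φ ρ₀ hE hΦ hρ hρΦ hc hf hpair
  have hEm : MeasurableSet E := hE.1
  have hEfin : volume E ≠ ∞ := hE.2.measure_lt_top.ne
  have hI : ∀ w ∈ W, ∫⁻ z, c w z ≤ ENNReal.ofReal ρ₀ * volume E := fun w hw =>
    int_le hEm (hc w hw).2.1 (hc w hw).2.2.1
  have hI' : ∀ w ∈ W, ∫⁻ z, c w z ≤ ENNReal.ofReal (Φ * f w) * volume E := fun w hw =>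
    int_le hEm (hc w hw).2.1 (hc w hw).2.2.2.1
  by_cases hV : volume E = 0
  · have h2 : ∑ w ∈ W, ∫⁻ z, c w z ≤ 0 := by
      apply (Finset.sum_le_sum hI).trans
      simp [hV]
    exact h2.trans zero_le
  have hIfin : ∀ w ∈ W, ∫⁻ z, c w z ≠ ∞ := fun w hw =>
    ((hI w hw).trans_lt (ENNReal.mul_lt_top ENNReal.ofReal_lt_top hEfin.lt_top)).ne
  set V : ℝ := (volume E).toReal with hVdef
  have hVpos : 0 < V := ENNReal.toReal_pos hV hEfin
  have hVE : volume E = ENNReal.ofReal V := (ENNReal.ofReal_toReal hEfin).symm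
  set a : ℕ → ℝ := fun w => (∫⁻ z, c w z).toReal / V with ha
  have haI : ∀ w ∈ W, ∫⁻ z, c w z = ENNReal.ofReal (a w * V) := by
    intro w hw
    simp only [ha]
    rw [div_mul_cancel₀ _ hVpos.ne', ENNReal.ofReal_toReal (hIfin w hw)]
  have ha0 : ∀ w, 0 ≤ a w := fun w => by positivity
  have hΦ0 : 0 < Φ := by linarith
  have hle : ∀ w ∈ W, ∀ r : ℝ, 0 ≤ r → ∫⁻ z, c w z ≤ ENNReal.ofReal r * volume E → a w ≤ r := by
    intro w hw r hr h
    rw [haI w hw, hVE, ← ENNReal.ofReal_mul hr, ENNReal.ofReal_le_ofReal_iff (by positivity)] at h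
    exact le_of_mul_le_mul_right h hVpos
  have hfin := hB W a f Φ ρ₀ CA hΦ hρ hρΦ hCA (fun w hw => ⟨ha0 w, hle w hw ρ₀ hρ.le (hI w hw),
    hle w hw (Φ * f w) (mul_nonneg hΦ0.le (hc w hw).2.2.2.2.1) (hI' w hw), (hc w hw).2.2.2.2⟩) hf (by
    intro ρ' h hρ' hρ'Φ hh
    have hmin : 0 < min ρ₀ ρ' := lt_min hρ hρ'
    have hminΦ : min ρ₀ ρ' ≤ Φ := (min_le_left _ _).trans hρΦ
    have key := hA (W.filter (fun w => Φ * f w ≤ ρ' ∧ h ≤ a w ∧ a w ≤ 2 * h)) E c Φ (min ρ₀ ρ') h hE hΦ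
      hmin hminΦ hh (by
        intro w hw
        obtain ⟨hwW, g1, g2, g3⟩ := Finset.mem_filter.1 hw
        obtain ⟨c1, c2, c3, c4, c5, c6⟩ := hc w hwW
        refine ⟨c1, c2, ?_, ?_, ?_⟩
        · intro z
          rcases le_total ρ₀ ρ' with h3 | h3
          · rw [min_eq_left h3]
            exact c3 z
          · rw [min_eq_right h3]
            exact (c4 z).trans (ENNReal.ofReal_le_ofReal g1)
        · rw [haI w hwW, hVE, ← ENNReal.ofReal_mul hh.le]
          exact ENNReal.ofReal_le_ofReal (mul_le_mul_of_nonneg_right g2 hVpos.le)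
        · rw [haI w hwW, hVE, ← ENNReal.ofReal_mul (by positivity)]
          exact ENNReal.ofReal_le_ofReal (mul_le_mul_of_nonneg_right g3 hVpos.le))
      (fun w hw u hu hwu => hpair w (Finset.mem_filter.1 hw).1 u (Finset.mem_filter.1 hu).1 hwu)
    have hlog : 0 ≤ Real.logb 2 (Φ / min ρ₀ ρ') :=
      Real.logb_nonneg (by norm_num) ((one_le_div hmin).2 hminΦ)
    rw [Finset.sum_congr rfl (fun w hw => haI w (Finset.mem_filter.1 hw).1),
      ← ENNReal.ofReal_sum_of_nonneg (fun w _ => mul_nonneg (ha0 w) hVpos.le), hVE,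
      ← ENNReal.ofReal_mul (by positivity), ENNReal.ofReal_le_ofReal_iff (by positivity),
      ← Finset.sum_mul] at key
    exact le_of_mul_le_mul_right key hVpos)
  have h3 : 0 ≤ Real.logb 2 (Φ / ρ₀) := Real.logb_nonneg (by norm_num) ((one_le_div hρ).2 hρΦ)
  have h4 : 0 ≤ Real.logb 2 Φ := Real.logb_nonneg (by norm_num) hΦ
  rw [Finset.sum_congr rfl haI, ← ENNReal.ofReal_sum_of_nonneg (fun w _ => mul_nonneg (ha0 w) hVpos.le),
    hVE, ← ENNReal.ofReal_mul (by positivity), ← Finset.sum_mul]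
  exact ENNReal.ofReal_le_ofReal (mul_le_mul_of_nonneg_right hfin hVpos.le)

end Pool.Agent.Helper6.ES
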