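import Pool.Agent.Helper68.ES.St3

/-!
# Project ES, module TWA: most points are not sparse
-/

set_option autoImplicit false

open MeasureTheory Set Filter Topology
open scoped ENNReal RealInnerProductSpace

namespace Pool.Agent.Helper6.ES

open Pool.Agent.Helper68.ES Pool.Agent.Helper68.EP Pool.Agent.Helper20.RG
open Pool.Agent.Helper20.RL (RQ Rich BM Fml Hit)
open Pool.Agent.Helper68.LM (Pl BB Bd Av HL ft fm DQ)

theorem hTWA (hSPA : StSPA) : Pool.Agent.Helper68.ES.StTWA := by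
  obtain ⟨C, hC1, hC⟩ := hSPA
  refine ⟨C, hC1, ?_⟩
  intro C₀ p A CH E H w u q₁ q₂ r J sl fl D θ₁ m₁ θ₂ m₂ al lam M d₀ κ₀ ω hC₀ hp1 hp2 hNu hCls hChg hD hE hH
    hHE hvol hlam hint
  by_contra hcon
  push Not at hcon
  obtain ⟨hr1, -⟩ := hNu.r1
  obtain ⟨t1, t2, t3, t4, m1, m2⟩ := hNu.th1
  obtain ⟨l1, l2, M1, d1, k1, k2, A0, CH1⟩ := hNu.pos
  have hC₀pos : 0 < C₀ := by linarith
  set g : ℕ := 2 ^ (q₁ - 6 - r) with hg
  have hgR : (g : ℝ) = 2 ^ (q₁ - 6 - r) := by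
    rw [hg]
    push_cast
    rfl
  have hLR : ((2 ^ (r + 7) : ℕ) : ℝ) = 2 ^ (r + 7) := by
    push_cast
    rfl
  have h64 : (64 : ℝ) * g = 2 ^ (q₁ - r) := by
    rw [hgR, show q₁ - r = 6 + (q₁ - 6 - r) by omega, pow_add]
    norm_num
  have e1 : C * CH / M ≤ lam := by
    refine le_trans ?_ hNu.sur
    apply div_le_div_of_nonneg_right _ M1.le
    nlinarith
  have e2 : (2 : ℝ) ^ (-(p * w)) * (64 * g * J.card * (35 / (m₁ * θ₁))) ≤ lam / 16 := by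
    refine le_trans ?_ hNu.you.1
    rw [h64]
    have := hCls.card
    gcongr
  have e3 : 2 ^ (q₁ + 1) ≤ 2 ^ (r + 7) * g := by
    rw [hg, ← pow_add]
    apply Nat.pow_le_pow_right (by norm_num)
    omega
  have e4 : 2 ≤ g := by
    rw [hg]
    calc 2 = 2 ^ 1 := (pow_one 2).symm
      _ ≤ 2 ^ (q₁ - 6 - r) := Nat.pow_le_pow_right (by norm_num) (by omega)
  have e5 : C * d₀ ≤ lam ^ 2 * θ₁ / (((2 ^ (r + 7) : ℕ) : ℝ) + 2) := by
    rw [hLR]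
    refine le_trans ?_ hNu.spd
    exact mul_le_mul_of_nonneg_right hC₀ d1.le
  have key := hC p A CH E H w q₁ g (2 ^ (r + 7)) J sl fl D θ₁ m₁ al lam M d₀ ω hp1 hp2 A0 CH1 hCls hChg hD hE hH
    hHE hvol l1 l2 t1 t2 m1 (by omega) hlam hint M1 e1 e2 e3 e4 hNu.siz.1 Nat.one_le_two_pow d1 e5 hcon
  rw [hLR, hgR] at key
  have h1 : C * (1 + (2 : ℝ) ^ w * (A / 2 ^ (q₁ - 6 - r)) ^ (1 / p)) *
      (1 + d₀ * (2 ^ (r + 7) + 2) ^ 2 / (lam ^ 4 * θ₁ ^ 2)) ≤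
      C₀ * (1 + (2 : ℝ) ^ w * (A / 2 ^ (q₁ - 6 - r)) ^ (1 / p)) *
      (1 + d₀ * (2 ^ (r + 7) + 2) ^ 2 / (lam ^ 4 * θ₁ ^ 2)) := by
    gcongr
  exact absurd (key.trans h1) (not_le.2 hNu.spa)

end Pool.Agent.Helper6.ES
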